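import Pool.Agent.W622.BK.Stm

/-! BK-B1: the first Betti number. -/

set_option autoImplicit false

universe u

namespace Pool.Agent.W551.BK

open Module Pool.Agent.W622.BK

local instance sub01 : Subsingleton (Fin (0 + 1)) := inferInstanceAs (Subsingleton (Fin 1))

theorem dCE_one (k : Type u) [Field k] (L : Type u) [LieRing L] [LieAlgebra k L]
    (f : L [⋀^Fin (0 + 1)]→ₗ[k] k) (x : Fin (0 + 2) → L) :
    dCE k L f x = - f (fun _ => ⁅x 0, x 1⁆) := by
  unfold dCE
  rw [Fin.sum_univ_two]
  have h1 : ∀ i : Fin (0 + 2), (∑ j : Fin (0 + 1), if (i : ℕ) ≤ (j : ℕ) then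
      (-1 : k) ^ ((i : ℕ) + (j : ℕ) + 1) *
        f (Fin.cons ⁅x i, x j.succ⁆ (fun t : Fin 0 => x (i.succAbove (j.succAbove t))))
      else 0) = if (i : ℕ) ≤ 0 then
      (-1 : k) ^ ((i : ℕ) + 0 + 1) *
        f (Fin.cons ⁅x i, x (Fin.succ 0)⁆ (fun t : Fin 0 => x (i.succAbove (Fin.succAbove 0 t))))
      else 0 := by
    intro i
    rw [Fin.sum_univ_one]
    rfl
  have h2 : ∀ (y : L) (g : Fin 0 → L), (Fin.cons y g : Fin (0 + 1) → L) = fun _ => y := by
    intro y g
    funext i
    have hi : i = 0 := Subsingleton.elim _ _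
    subst hi
    rfl
  rw [h1, h1]
  have e0 : ((0 : Fin (0 + 2)) : ℕ) = 0 := rfl
  have e1 : ((1 : Fin (0 + 2)) : ℕ) = 1 := rfl
  rw [e0, e1, if_pos le_rfl, if_neg (by norm_num), h2, add_zero]
  have e2 : (Fin.succ 0 : Fin (0 + 2)) = 1 := rfl
  rw [e2]
  norm_num

theorem t_B1 : Pool.Agent.W622.BK.S_B1.{u} := by
  intro k _ L _ _ E _ _ _ j pr hpj hpr hgen
  -- the linear map
  let Ψ : Dual k (E →ₗ[k] k) →ₗ[k] ((Fin 1 → L) → k) :=
    { toFun := fun ℓ x => ℓ (pr (x 0))
      map_add' := fun a b => by funext x; rfl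
      map_smul' := fun c a => by funext x; rfl }
  have hrange : LinearMap.range Ψ = cocycles k L 1 := by
    apply le_antisymm
    · rintro _ ⟨ℓ, rfl⟩
      refine ⟨AlternatingMap.ofSubsingleton k L k (0 : Fin (0 + 1)) (ℓ ∘ₗ pr), fun x => rfl, ?_⟩
      intro x
      rw [dCE_one]
      have h1 : (AlternatingMap.ofSubsingleton k L k (0 : Fin (0 + 1)) (ℓ ∘ₗ pr))
          (fun _ => ⁅x 0, x 1⁆) = ℓ (pr ⁅x 0, x 1⁆) := rfl
      rw [h1, hpr, map_zero, neg_zero]
    · rintro F ⟨f, hf, hd⟩
      let f' : L →ₗ[k] k := (AlternatingMap.ofSubsingleton k L k (0 : Fin (0 + 1))).symm f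
      have hf' : ∀ y, f' y = f (fun _ => y) := fun y => rfl
      have hbr : ∀ y z : L, f' ⁅y, z⁆ = 0 := by
        intro y z
        have h1 := hd (fun i => if i = 0 then y else z)
        rw [dCE_one] at h1
        have h2 := neg_eq_zero.1 h1
        rw [hf']
        exact h2
      let h : L →ₗ[k] k := f' - f' ∘ₗ j ∘ₗ pr
      have hh : ∀ y, h y = f' y - f' (j (pr y)) := fun y => rfl
      let S : LieSubalgebra k L :=
        { LinearMap.ker h with
          lie_mem' := by
            intro y z _ _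
            change h ⁅y, z⁆ = 0
            rw [hh, hbr, hpr, map_zero, map_zero, sub_zero] }
      have hS : (⊤ : LieSubalgebra k L) ≤ S := by
        rw [← hgen, LieSubalgebra.lieSpan_le]
        rintro _ ⟨φ, rfl⟩
        change h (j φ) = 0
        rw [hh, hpj, sub_self]
      refine ⟨f' ∘ₗ j, ?_⟩
      funext x
      rw [hf x]
      change f' (j (pr (x 0))) = f x
      have h3 : h (x 0) = 0 := hS (LieSubalgebra.mem_top (x 0))
      rw [hh, sub_eq_zero] at h3
      rw [← h3, hf']
      congr 1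
      funext i
      have hi : i = 0 := Subsingleton.elim _ _
      rw [hi]
  have hinj : Function.Injective Ψ := by
    intro a b hab
    apply LinearMap.ext
    intro φ
    have h1 := congrFun hab (fun _ => j φ)
    change a (pr (j φ)) = b (pr (j φ)) at h1
    rwa [hpj] at h1
  have hcoc : finrank k (cocycles k L 1) = finrank k E := by
    rw [← hrange, LinearMap.finrank_range_of_inj hinj]
    have h1 : finrank k (Dual k (E →ₗ[k] k)) = finrank k (Dual k E) :=
      Subspace.dual_finrank_eq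
    rw [h1]
    exact Subspace.dual_finrank_eq
  have hbot : (coboundaries k L 1).comap (cocycles k L 1).subtype = ⊥ := by
    rw [eq_bot_iff]
    intro F hF
    have h1 : ((cocycles k L 1).subtype F) = 0 := hF
    exact (Submodule.mem_bot k).2 (Subtype.ext h1)
  unfold betti
  rw [← hcoc]
  exact (Submodule.quotEquivOfEqBot _ hbot).finrank_eq

end Pool.Agent.W551.BK
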